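import Pool.Agent.H.MP_f867b0_co.C

set_option autoImplicit false

namespace Pool.Agent.Results.MP_f867b0_co.Lower

open Set

/-- the unit bar with left endpoint `p` -/
def bar (p : ℝ × ℝ) : Set (ℝ × ℝ) := Icc p.1 (p.1 + 1) ×ˢ {p.2}

/-- `B` is a `t`-unit-bar visibility representation of `G` -/
def IsRep {V : Type} (G : SimpleGraph V) (t : ℕ) (B : V → Finset (ℝ × ℝ)) : Prop :=
  (∀ v, (B v).card ≤ t) ∧
  (∀ v w, ∀ p ∈ B v, ∀ q ∈ B w, (v, p) ≠ (w, q) → Disjoint (bar p) (bar q)) ∧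
  ∀ v w, v ≠ w → (G.Adj v w ↔ ∃ p ∈ B v, ∃ q ∈ B w, ∃ a b : ℝ, a < b ∧
    Icc a b ⊆ Icc p.1 (p.1 + 1) ∧ Icc a b ⊆ Icc q.1 (q.1 + 1) ∧
    ∀ u, ∀ r ∈ B u, r ≠ p → r ≠ q → Disjoint (bar r) (Icc a b ×ˢ uIcc p.2 q.2))

open Pool.Agent.H.MP_f867b0_co in
theorem result (m n t : ℕ) (hn : 1 ≤ n) (B : Fin m ⊕ Fin n → Finset (ℝ × ℝ))
    (hB : IsRep (completeBipartiteGraph (Fin m) (Fin n)) t B) : m ≤ 4 * t := by
  classical
  obtain ⟨hc, hd, ha⟩ := hB
  let R : Arr (Σ v, {p // p ∈ B v}) (Fin m ⊕ Fin n) :=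
    { x := fun i => i.2.1.1
      h := fun i => i.2.1.2
      own := fun i => i.1
      A := fun v => v.isRight = true
      dis := by
        rintro ⟨v, p, hp⟩ ⟨w, q, hq⟩ hne s a1 a2 a3 a4 e
        have h1 : (v, p) ≠ (w, q) := fun h => by
          obtain ⟨rfl, rfl⟩ := Prod.mk.inj h
          exact hne rfl
        exact Set.disjoint_left.1 (hd v w p hp q hq h1) (show (s, p.2) ∈ bar p from ⟨⟨a1, a2⟩, rfl⟩)
          ⟨⟨a3, a4⟩, e⟩ }
  have key : ∀ v w p (hp : p ∈ B v) q (hq : q ∈ B w), R.sees ⟨v, p, hp⟩ ⟨w, q, hq⟩ ↔ ∃ a b : ℝ, a < b ∧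
      Icc a b ⊆ Icc p.1 (p.1 + 1) ∧ Icc a b ⊆ Icc q.1 (q.1 + 1) ∧
      ∀ u, ∀ r ∈ B u, r ≠ p → r ≠ q → Disjoint (bar r) (Icc a b ×ˢ uIcc p.2 q.2) := by
    intro v w p hp q hq
    constructor
    · rintro ⟨a, b, hab, h1, h2, h3⟩
      refine ⟨a, b, hab, Icc_subset_Icc h1.1 h1.2, Icc_subset_Icc h2.1 h2.2, fun u r hr n1 n2 => ?_⟩
      rw [Set.disjoint_left]
      rintro ⟨s, y⟩ ⟨c1, c2⟩ ⟨c3, c4⟩
      have e : y = r.2 := c2
      subst e
      refine h3 ⟨u, r, hr⟩ (fun h => n1 ?_) (fun h => n2 ?_) s c3.1 c3.2 c1 c4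
      · exact congrArg (fun i : (Σ v, {p // p ∈ B v}) => i.2.1) h
      · exact congrArg (fun i : (Σ v, {p // p ∈ B v}) => i.2.1) h
    · rintro ⟨a, b, hab, h1, h2, h3⟩
      refine ⟨a, b, hab, (Icc_subset_Icc_iff hab.le).1 h1, (Icc_subset_Icc_iff hab.le).1 h2, ?_⟩
      rintro ⟨u, r, hr⟩ n1 n2 s s1 s2 hcv hm
      have inj : ∀ v' p' (hp' : p' ∈ B v'), (⟨u, r, hr⟩ : Σ v, {p // p ∈ B v}) ≠ ⟨v', p', hp'⟩ → r ≠ p' := by
        intro v' p' hp' hne e
        subst e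
        have h1 : (u, r) ≠ (v', r) := fun h => by
          obtain ⟨rfl, -⟩ := Prod.mk.inj h
          exact hne rfl
        exact Set.disjoint_left.1 (hd u v' r hr r hp' h1)
          (show r ∈ bar r from ⟨⟨le_rfl, by linarith⟩, rfl⟩)
          ⟨⟨le_rfl, by linarith⟩, rfl⟩
      exact Set.disjoint_left.1 (h3 u r hr (inj v p hp n1) (inj w q hq n2))
        (show (s, r.2) ∈ bar r from ⟨hcv, rfl⟩) ⟨⟨s1, s2⟩, hm⟩
  have tot := R.total (by
      rintro ⟨v, p, hp⟩ ⟨w, q, hq⟩ hs n1 n2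
      by_contra hne
      have := (ha v w hne).2 ⟨p, hp, q, hq, (key v w p hp q hq).1 hs⟩
      rcases v with v | v <;> rcases w with w | w <;> simp [R] at n1 n2 this)
    ((Finset.univ : Finset (Fin m × Fin n)).image fun z => s(Sum.inl z.1, Sum.inr z.2)) (by
      intro e he
      obtain ⟨⟨b, a⟩, -, rfl⟩ := Finset.mem_image.1 he
      obtain ⟨p, hp, q, hq, h⟩ := (ha (Sum.inl b) (Sum.inr a) (by simp)).1 (by simp)
      exact ⟨⟨_, p, hp⟩, ⟨_, q, hq⟩, (key _ _ p hp q hq).2 h, by simp [R], rfl⟩)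
  rw [Finset.card_image_of_injective _ (by
    rintro ⟨b, a⟩ ⟨b', a'⟩ h
    simpa using h)] at tot
  have c1 : (Finset.univ.filter fun i : (Σ v, {p // p ∈ B v}) => R.A (R.own i)).card ≤ n * t := by
    have : (Finset.univ.filter fun i : (Σ v, {p // p ∈ B v}) => R.A (R.own i)).card ≤
        ((Finset.univ : Finset (Fin n)).sigma fun a => B (Sum.inr a)).card := by
      refine Finset.card_le_card_of_surjOn (fun z : (Σ _ : Fin n, ℝ × ℝ) =>
        if h : z.2 ∈ B (Sum.inr z.1) then some (⟨Sum.inr z.1, z.2, h⟩ : Σ v, {p // p ∈ B v}) else none)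
        (t := (Finset.univ.filter fun i : (Σ v, {p // p ∈ B v}) => R.A (R.own i)).map
          Function.Embedding.some) ?_ |>.trans' (by rw [Finset.card_map])
      intro o ho
      obtain ⟨⟨v, p, hp⟩, hi, rfl⟩ := Finset.mem_map.1 ho
      rcases v with v | v
      · simp [R] at hi
      · exact ⟨⟨v, p⟩, by simpa using hp, by simp [hp]⟩
    refine this.trans ?_
    rw [Finset.card_sigma]
    calc ∑ a : Fin n, (B (Sum.inr a)).card ≤ ∑ _a : Fin n, t := Finset.sum_le_sum fun a _ => hc _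
      _ = n * t := by simp
  simp only [Finset.card_univ, Fintype.card_prod, Fintype.card_fin] at tot
  have : n * m ≤ n * (4 * t) := by
    calc n * m = m * n := mul_comm _ _
      _ ≤ 4 * (n * t) := le_trans tot (Nat.mul_le_mul_left _ (by convert c1))
      _ = n * (4 * t) := by ring
  exact Nat.le_of_mul_le_mul_left this hn

end Pool.Agent.Results.MP_f867b0_co.Lower
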